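import Mathlib

/-!
# A vertex in `k(k-1)` triangles that no antimorphism fixes

A regular self-complementary graph on `9 = 4·2+1` vertices with a vertex `v` in exactly
`2 = 2·(2-1)` triangles that is fixed by no isomorphism from the graph to its complement: some
neighbour of `v` has no common neighbour with `v`, but in the complement every neighbour of `v` has
a common neighbour with `v`.
-/

set_option autoImplicit false

namespace Pool.Agent.Results.MP_b6be33_co.NineVertices

/-- the triangles of `G` through `v` -/
def trianglesAt {V : Type} (G : SimpleGraph V) (v : V) : Set (Finset V) :=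
  {s | v ∈ s ∧ G.IsNClique 3 s}

/-- the adjacency matrix -/
def mat : Fin 9 → Fin 9 → Bool :=
  ![![false, false, true, false, true, true, false, true, false],
    ![false, false, true, false, false, true, true, false, true],
    ![true, true, false, false, true, false, false, false, true],
    ![false, false, false, false, true, false, true, true, true],
    ![true, false, true, true, false, false, true, false, false],
    ![true, true, false, false, false, false, false, true, true],
    ![false, true, false, true, true, false, false, true, false],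
    ![true, false, false, true, false, true, true, false, false],
    ![false, true, true, true, false, true, false, false, false]]

/-- the graph -/
def G : SimpleGraph (Fin 9) where
  Adj i j := mat i j = true
  symm := ⟨by decide⟩
  loopless := ⟨by decide⟩

instance : DecidableRel G.Adj := fun i j => inferInstanceAs (Decidable (mat i j = true))

/-- the permutation `(1 2 3 4)(5 6 7 8)` -/
def perm : Equiv.Perm (Fin 9) where
  toFun := ![0, 2, 3, 4, 1, 6, 7, 8, 5]
  invFun := ![0, 4, 1, 2, 3, 8, 5, 6, 7]
  left_inv := by decide
  right_inv := by decide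

/-- it is an isomorphism onto the complement -/
def iso : G ≃g Gᶜ where
  toEquiv := perm
  map_rel_iff' := by
    have : ∀ a b : Fin 9, (Gᶜ).Adj (perm a) (perm b) ↔ G.Adj a b := by decide
    intro a b
    exact this a b

theorem tri : (trianglesAt G 1).ncard = 2 := by
  have h : trianglesAt G 1 = ((Finset.univ.powerset.filter
      (fun s : Finset (Fin 9) => 1 ∈ s ∧ s.card = 3 ∧ ∀ a ∈ s, ∀ b ∈ s, a ≠ b → G.Adj a b) :
      Finset (Finset (Fin 9))) : Set (Finset (Fin 9))) := by
    ext s
    simp only [trianglesAt, Set.mem_ofPred_eq, SimpleGraph.isNClique_iff, Finset.coe_filter,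
      Finset.mem_powerset, Finset.subset_univ, true_and, SimpleGraph.isClique_iff, Set.Pairwise,
      Finset.mem_coe]
    constructor
    · rintro ⟨h1, h2, h3⟩
      refine ⟨h1, h3, ?_⟩
      intro a ha b hb hab
      exact h2 ha hb hab
    · rintro ⟨h1, h3, h2⟩
      refine ⟨h1, ?_, h3⟩
      intro a ha b hb hab
      exact h2 ha hb hab
  rw [h, Set.ncard_coe_finset]
  decide +kernel

theorem not_fixed (P : G ≃g Gᶜ) : P 1 ≠ 1 := by
  intro hP
  have h1 : ∃ u, G.Adj 1 u ∧ ∀ w, ¬ (G.Adj 1 w ∧ G.Adj u w) := by decide
  have h2 : ∀ u, Gᶜ.Adj 1 u → ∃ w, Gᶜ.Adj 1 w ∧ Gᶜ.Adj u w := by decide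
  obtain ⟨u, hu, hw⟩ := h1
  have h3 := P.map_rel_iff.mpr hu
  rw [hP] at h3
  obtain ⟨w, hw1, hw2⟩ := h2 _ h3
  obtain ⟨w', rfl⟩ := P.surjective w
  rw [← hP] at hw1
  exact hw w' ⟨P.map_rel_iff.mp hw1, P.map_rel_iff.mp hw2⟩

/-- **Disproof of Q1** of MP_b6be33_co: it is false that in a regular self-complementary graph on
`4k+1` vertices every vertex in exactly `k(k-1)` triangles is fixed by an isomorphism onto the
complement. -/
theorem result : ¬ ∀ (V : Type) [Fintype V] (H : SimpleGraph V) [DecidableRel H.Adj] (k : ℕ),
    Fintype.card V = 4 * k + 1 → H.IsRegularOfDegree (2 * k) → Nonempty (H ≃g Hᶜ) →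
    ∀ v : V, (trianglesAt H v).ncard = k * (k - 1) → ∃ P : H ≃g Hᶜ, P v = v := by
  intro h
  obtain ⟨P, hP⟩ := h (Fin 9) G 2 (by simp) (by
    have : ∀ v : Fin 9, G.degree v = 2 * 2 := by decide +kernel
    exact this) ⟨iso⟩ 1 tri
  exact not_fixed P hP

end Pool.Agent.Results.MP_b6be33_co.NineVertices
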